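import Mathlib.Analysis.InnerProductSpace.PiL2
import Mathlib.Analysis.Normed.Lp.ProdLp
import Mathlib.Analysis.Normed.Module.FiniteDimension

/-!
# The stretch set of a vector valued Lipschitz map is `(n+m)`-rectifiable

If `L > 0` is the optimal Lipschitz constant of `f : ℝⁿ → ℝᵐ`, and `(x, y)`, `(x', y')` are in the
stretch set, then adding `|f x - f y'| ≤ L |x - y'|` and `|f x' - f y| ≤ L |x' - y|` (both squared)
and subtracting the two equalities gives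
`⟪f x - f x', f y - f y'⟫ ≤ L ^ 2 ⟪x - x', y - y'⟫`, that is
`|Δ(x - y)| ^ 2 ≤ |Δ(x + y)| ^ 2 + |Δ(f x - f y)| ^ 2 / L ^ 2`. Hence on the stretch set the pair
`(x, y)` is a Lipschitz function of the `n + m` coordinates of `(x + y, (f x - f y) / L)`.
-/

set_option autoImplicit false

open scoped NNReal RealInnerProductSpace

namespace Pool.Agent.Results.MP_adfebc_an.StretchSet

/-- The optimal Lipschitz constant `Lip(f)`: the infimum of all `L ≥ 0` with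
`|f x - f y| ≤ L |x - y|` for all `x, y`. -/
noncomputable def optLip {n m : ℕ} (f : EuclideanSpace ℝ (Fin n) → EuclideanSpace ℝ (Fin m)) : ℝ :=
  sInf {L : ℝ | 0 ≤ L ∧ ∀ x y, ‖f x - f y‖ ≤ L * ‖x - y‖}

/-- The stretch set of `f`, a subset of `ℝⁿ × ℝⁿ = ℝ²ⁿ` with its Euclidean norm. -/
def stretchSet {n m : ℕ} (f : EuclideanSpace ℝ (Fin n) → EuclideanSpace ℝ (Fin m)) :
    Set (WithLp 2 (EuclideanSpace ℝ (Fin n) × EuclideanSpace ℝ (Fin n))) :=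
  {p | ‖f p.fst - f p.snd‖ = optLip f * ‖p.fst - p.snd‖}

/-- `E` is `k`-rectifiable in the strong sense: it is covered by countably many Lipschitz images
of `ℝᵏ`. -/
def StronglyRectifiable {X : Type*} [PseudoEMetricSpace X] (k : ℕ) (E : Set X) : Prop :=
  ∃ ψ : ℕ → EuclideanSpace ℝ (Fin k) → X,
    (∀ i, ∃ K : ℝ≥0, LipschitzWith K (ψ i)) ∧ E ⊆ ⋃ i, Set.range (ψ i)

variable {n m : ℕ}

/-- The optimal constant is a Lipschitz constant. -/
theorem le_optLip {f : EuclideanSpace ℝ (Fin n) → EuclideanSpace ℝ (Fin m)} {K : ℝ≥0}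
    (hf : LipschitzWith K f) (x y : EuclideanSpace ℝ (Fin n)) :
    ‖f x - f y‖ ≤ optLip f * ‖x - y‖ := by
  have hne : {L : ℝ | 0 ≤ L ∧ ∀ x y, ‖f x - f y‖ ≤ L * ‖x - y‖}.Nonempty := by
    refine ⟨K, K.2, fun x y => ?_⟩
    have := hf.dist_le_mul x y
    rwa [dist_eq_norm, dist_eq_norm] at this
  rcases eq_or_ne x y with rfl | hxy
  · simp
  · have hpos : 0 < ‖x - y‖ := norm_pos_iff.2 (sub_ne_zero.2 hxy)
    rw [← div_le_iff₀ hpos]
    apply le_csInf hne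
    rintro L ⟨-, hL⟩
    rw [div_le_iff₀ hpos]
    exact hL x y

theorem optLip_pos {f : EuclideanSpace ℝ (Fin n) → EuclideanSpace ℝ (Fin m)} {K : ℝ≥0}
    (hf : LipschitzWith K f) (hne : ∃ x y, f x ≠ f y) : 0 < optLip f := by
  obtain ⟨x, y, hxy⟩ := hne
  have h1 := le_optLip hf x y
  have h2 : 0 < ‖f x - f y‖ := norm_pos_iff.2 (sub_ne_zero.2 hxy)
  by_contra h
  push Not at h
  have : optLip f * ‖x - y‖ ≤ 0 := mul_nonpos_of_nonpos_of_nonneg h (norm_nonneg _)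
  linarith

/-- The key inequality on the stretch set. -/
theorem key {L : ℝ} (hL : 0 < L) {f : EuclideanSpace ℝ (Fin n) → EuclideanSpace ℝ (Fin m)}
    (hf : ∀ x y, ‖f x - f y‖ ≤ L * ‖x - y‖) {x y x' y' : EuclideanSpace ℝ (Fin n)}
    (h : ‖f x - f y‖ = L * ‖x - y‖) (h' : ‖f x' - f y'‖ = L * ‖x' - y'‖) :
    ‖x - x'‖ ^ 2 + ‖y - y'‖ ^ 2 ≤
      ‖(x + y) - (x' + y')‖ ^ 2 + ‖L⁻¹ • (f x - f y) - L⁻¹ • (f x' - f y')‖ ^ 2 := by
  have e1 : ‖f x - f y'‖ ^ 2 ≤ L ^ 2 * ‖x - y'‖ ^ 2 := by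
    rw [← mul_pow]; exact pow_le_pow_left₀ (norm_nonneg _) (hf _ _) 2
  have e2 : ‖f x' - f y‖ ^ 2 ≤ L ^ 2 * ‖x' - y‖ ^ 2 := by
    rw [← mul_pow]; exact pow_le_pow_left₀ (norm_nonneg _) (hf _ _) 2
  have e3 : ‖f x - f y‖ ^ 2 = L ^ 2 * ‖x - y‖ ^ 2 := by rw [h, mul_pow]
  have e4 : ‖f x' - f y'‖ ^ 2 = L ^ 2 * ‖x' - y'‖ ^ 2 := by rw [h', mul_pow]
  have g1 : ‖f x - f y'‖ ^ 2 + ‖f x' - f y‖ ^ 2 - ‖f x - f y‖ ^ 2 - ‖f x' - f y'‖ ^ 2 =
      2 * ⟪f x - f x', f y - f y'⟫ := by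
    simp only [norm_sub_sq_real, inner_sub_left, inner_sub_right]
    ring
  have g2 : ‖x - y'‖ ^ 2 + ‖x' - y‖ ^ 2 - ‖x - y‖ ^ 2 - ‖x' - y'‖ ^ 2 =
      2 * ⟪x - x', y - y'⟫ := by
    simp only [norm_sub_sq_real, inner_sub_left, inner_sub_right]
    ring
  have g3 : ⟪f x - f x', f y - f y'⟫ ≤ L ^ 2 * ⟪x - x', y - y'⟫ := by
    nlinarith
  have g4 : ‖L⁻¹ • (f x - f y) - L⁻¹ • (f x' - f y')‖ ^ 2 =
      (L⁻¹) ^ 2 * (‖f x - f x'‖ ^ 2 + ‖f y - f y'‖ ^ 2 - 2 * ⟪f x - f x', f y - f y'⟫) := by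
    rw [← smul_sub, norm_smul, mul_pow, Real.norm_of_nonneg (inv_nonneg.2 hL.le)]
    congr 1
    have : f x - f y - (f x' - f y') = (f x - f x') - (f y - f y') := by abel
    rw [this, norm_sub_sq_real]
    ring
  have g5 : ‖(x + y) - (x' + y')‖ ^ 2 = ‖x - x'‖ ^ 2 + ‖y - y'‖ ^ 2 + 2 * ⟪x - x', y - y'⟫ := by
    have : (x + y) - (x' + y') = (x - x') + (y - y') := by abel
    rw [this, norm_add_sq_real]
    ring
  have hinv : (L⁻¹) ^ 2 * L ^ 2 = 1 := by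
    rw [← mul_pow, inv_mul_cancel₀ hL.ne', one_pow]
  have hinv0 : 0 < (L⁻¹) ^ 2 := by positivity
  have g6 : (L⁻¹) ^ 2 * ⟪f x - f x', f y - f y'⟫ ≤ ⟪x - x', y - y'⟫ := by
    calc (L⁻¹) ^ 2 * ⟪f x - f x', f y - f y'⟫ ≤ (L⁻¹) ^ 2 * (L ^ 2 * ⟪x - x', y - y'⟫) :=
          mul_le_mul_of_nonneg_left g3 hinv0.le
      _ = ⟪x - x', y - y'⟫ := by rw [← mul_assoc, hinv, one_mul]
  rw [g4, g5]
  nlinarith [mul_nonneg hinv0.le (sq_nonneg ‖f x - f x'‖),
    mul_nonneg hinv0.le (sq_nonneg ‖f y - f y'‖)]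

/-- The chart `(x, y) ↦ (x + y, (f x - f y) / L)`. -/
noncomputable def chart (f : EuclideanSpace ℝ (Fin n) → EuclideanSpace ℝ (Fin m))
    (p : WithLp 2 (EuclideanSpace ℝ (Fin n) × EuclideanSpace ℝ (Fin n))) :
    WithLp 2 (EuclideanSpace ℝ (Fin n) × EuclideanSpace ℝ (Fin m)) :=
  WithLp.toLp 2 (p.fst + p.snd, (optLip f)⁻¹ • (f p.fst - f p.snd))

theorem dist_le_chart {f : EuclideanSpace ℝ (Fin n) → EuclideanSpace ℝ (Fin m)} {K : ℝ≥0}
    (hf : LipschitzWith K f) (hne : ∃ x y, f x ≠ f y)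
    {p q : WithLp 2 (EuclideanSpace ℝ (Fin n) × EuclideanSpace ℝ (Fin n))}
    (hp : p ∈ stretchSet f) (hq : q ∈ stretchSet f) : dist p q ≤ dist (chart f p) (chart f q) := by
  rw [dist_eq_norm, dist_eq_norm]
  have h := key (optLip_pos hf hne) (le_optLip hf) hp hq
  apply le_of_sq_le_sq _ (norm_nonneg _)
  rw [WithLp.prod_norm_sq_eq_of_L2, WithLp.prod_norm_sq_eq_of_L2]
  exact h

/-- **The stretch set is `(n+m)`-rectifiable.** In the strong sense, for every nonconstant Lipschitz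
map `f : ℝⁿ → ℝᵐ`. (The relation `n > m ≥ 1` of the question is not needed.) -/
theorem result (n m : ℕ) (f : EuclideanSpace ℝ (Fin n) → EuclideanSpace ℝ (Fin m))
    (hf : ∃ K : ℝ≥0, LipschitzWith K f) (hne : ∃ x y, f x ≠ f y) :
    StronglyRectifiable (n + m) (stretchSet f) := by
  classical
  obtain ⟨K, hK⟩ := hf
  -- the inverse of the chart
  let inv : WithLp 2 (EuclideanSpace ℝ (Fin n) × EuclideanSpace ℝ (Fin m)) →
      WithLp 2 (EuclideanSpace ℝ (Fin n) × EuclideanSpace ℝ (Fin n)) := fun z =>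
    if h : ∃ p ∈ stretchSet f, chart f p = z then h.choose else 0
  have hinv : ∀ p ∈ stretchSet f, inv (chart f p) = p := by
    intro p hp
    have h : ∃ q ∈ stretchSet f, chart f q = chart f p := ⟨p, hp, rfl⟩
    have h1 : inv (chart f p) = h.choose := dif_pos h
    have h2 := h.choose_spec
    rw [h1]
    have h3 := dist_le_chart hK hne h2.1 hp
    rw [h2.2, dist_self] at h3
    exact dist_le_zero.1 h3
  have hLip : LipschitzOnWith 1 inv (chart f '' stretchSet f) := by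
    apply LipschitzOnWith.of_dist_le_mul
    rintro _ ⟨p, hp, rfl⟩ _ ⟨q, hq, rfl⟩
    rw [hinv p hp, hinv q hq, NNReal.coe_one, one_mul]
    exact dist_le_chart hK hne hp hq
  obtain ⟨g, hg, hEq⟩ := hLip.extend_finite_dimension
  -- a linear isomorphism from `ℝ^(n+m)`
  have hdim : Module.finrank ℝ (EuclideanSpace ℝ (Fin (n + m))) =
      Module.finrank ℝ (WithLp 2 (EuclideanSpace ℝ (Fin n) × EuclideanSpace ℝ (Fin m))) := by
    have : Module.finrank ℝ (WithLp 2 (EuclideanSpace ℝ (Fin n) × EuclideanSpace ℝ (Fin m))) =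
        Module.finrank ℝ (EuclideanSpace ℝ (Fin n) × EuclideanSpace ℝ (Fin m)) :=
      (WithLp.linearEquiv 2 ℝ _).finrank_eq
    rw [this, Module.finrank_prod]
    simp
  let e := (LinearEquiv.ofFinrankEq _ _ hdim).toContinuousLinearEquiv
  refine ⟨fun _ => g ∘ e, fun _ => ⟨_, hg.comp e.lipschitz⟩, ?_⟩
  intro p hp
  refine Set.mem_iUnion.2 ⟨0, e.symm (chart f p), ?_⟩
  have h1 : g (chart f p) = inv (chart f p) := (hEq ⟨p, hp, rfl⟩).symm
  simp only [Function.comp_apply, ContinuousLinearEquiv.apply_symm_apply]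
  rw [h1, hinv p hp]

end Pool.Agent.Results.MP_adfebc_an.StretchSet
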